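import Pool.Agent.Helper931_Balance.Kempe
import Pool.Agent.Helper931_Balance.Num

set_option autoImplicit false

namespace Pool.Agent.Results.MP_81f5b7_pr.LargestClassBound

open Pool.Agent.H931

/-- Explicit bound: for `n ≥ 481` the probability that the final graph has a proper 3-colouring
with a class of size at least `(13/25) n` is at most `2 (199/200)^n`. -/
theorem explicit (n : ℕ) (hn : 481 ≤ n) :
      (Nat.card {σ : Sym2 (Fin n) ≃ Fin (Fintype.card (Sym2 (Fin n))) //
        ∃ H : SimpleGraph (Fin n),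
          (∀ e : Sym2 (Fin n), ¬ e.IsDiag →
            (e ∈ H.edgeSet ↔
              (SimpleGraph.fromEdgeSet
                ({f : Sym2 (Fin n) | f ∈ H.edgeSet ∧ σ f < σ e} ∪ {e})).Colorable 3)) ∧
          ∃ c : H.Coloring (Fin 3), ∃ i : Fin 3,
            ((13 : ℝ) / 25) * (n : ℝ) ≤ (Nat.card {v : Fin n // c v = i} : ℝ)} : ℝ) /
      (Nat.card (Sym2 (Fin n) ≃ Fin (Fintype.card (Sym2 (Fin n)))) : ℝ)
        ≤ 2 * ((199 : ℝ) / 200) ^ n := by
  have hnR : (481 : ℝ) ≤ n := by exact_mod_cast hn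
  have h := union_count_nat (V := Fin n) (N := Fintype.card (Sym2 (Fin n)))
    ((13 : ℝ) / 25 * n) (by linarith) (((199 : ℝ) / 400) ^ n) (by positivity)
    (by
      intro a b c hb hc hcb hm habc
      rw [Fintype.card_fin] at habc
      exact Gp_le hn hb hc hcb habc hm)
  rw [Fintype.card_fin] at h
  have hpos : (0 : ℝ) < (Nat.card (Sym2 (Fin n) ≃ Fin (Fintype.card (Sym2 (Fin n)))) : ℝ) := by
    have : Nonempty (Sym2 (Fin n) ≃ Fin (Fintype.card (Sym2 (Fin n)))) :=
      ⟨Fintype.equivFin _⟩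
    exact_mod_cast Nat.card_pos
  rw [div_le_iff₀ hpos]
  have e2 : ((199 : ℝ) / 400) ^ n * (2 * 2 ^ n) = 2 * ((199 : ℝ) / 200) ^ n := by
    rw [show ((199 : ℝ) / 200) = (199 / 400) * 2 by norm_num, mul_pow]
    ring
  rw [← e2]
  exact h

/-- For every `ε ≥ 14/75` the probability that the final graph of the random 3-colourable graph
process has a proper 3-colouring with some colour class of size at least `(1/3 + ε) n` tends to
`0`; moreover it is at most `2 (199/200)^n` for `n ≥ 481` when `1/3 + ε = 13/25`. -/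
theorem result :
    (∀ n : ℕ, 481 ≤ n →
      (Nat.card {σ : Sym2 (Fin n) ≃ Fin (Fintype.card (Sym2 (Fin n))) //
        ∃ H : SimpleGraph (Fin n),
          (∀ e : Sym2 (Fin n), ¬ e.IsDiag →
            (e ∈ H.edgeSet ↔
              (SimpleGraph.fromEdgeSet
                ({f : Sym2 (Fin n) | f ∈ H.edgeSet ∧ σ f < σ e} ∪ {e})).Colorable 3)) ∧
          ∃ c : H.Coloring (Fin 3), ∃ i : Fin 3,
            ((13 : ℝ) / 25) * (n : ℝ) ≤ (Nat.card {v : Fin n // c v = i} : ℝ)} : ℝ) /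
      (Nat.card (Sym2 (Fin n) ≃ Fin (Fintype.card (Sym2 (Fin n)))) : ℝ)
        ≤ 2 * ((199 : ℝ) / 200) ^ n) ∧
    ∀ ε : ℝ, 14 / 75 ≤ ε → Filter.Tendsto (fun n : ℕ =>
      (Nat.card {σ : Sym2 (Fin n) ≃ Fin (Fintype.card (Sym2 (Fin n))) //
        ∃ H : SimpleGraph (Fin n),
          (∀ e : Sym2 (Fin n), ¬ e.IsDiag →
            (e ∈ H.edgeSet ↔
              (SimpleGraph.fromEdgeSet
                ({f : Sym2 (Fin n) | f ∈ H.edgeSet ∧ σ f < σ e} ∪ {e})).Colorable 3)) ∧
          ∃ c : H.Coloring (Fin 3), ∃ i : Fin 3,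
            ((1 : ℝ) / 3 + ε) * (n : ℝ) ≤ (Nat.card {v : Fin n // c v = i} : ℝ)} : ℝ) /
      (Nat.card (Sym2 (Fin n) ≃ Fin (Fintype.card (Sym2 (Fin n)))) : ℝ))
      Filter.atTop (nhds 0) := by
  classical
  refine ⟨explicit, ?_⟩
  intro ε hε
  have hlim : Filter.Tendsto (fun n : ℕ => 2 * ((199 : ℝ) / 200) ^ n) Filter.atTop (nhds 0) := by
    have := (tendsto_pow_atTop_nhds_zero_of_lt_one (r := (199 : ℝ) / 200) (by norm_num)
      (by norm_num)).const_mul 2
    simpa using this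
  refine squeeze_zero' (Filter.Eventually.of_forall (fun n => by positivity)) ?_ hlim
  filter_upwards [Filter.eventually_ge_atTop 481] with n hn
  refine le_trans ?_ (explicit n hn)
  apply div_le_div_of_nonneg_right _ (by positivity)
  have hsub : Nat.card {σ : Sym2 (Fin n) ≃ Fin (Fintype.card (Sym2 (Fin n))) //
        ∃ H : SimpleGraph (Fin n),
          (∀ e : Sym2 (Fin n), ¬ e.IsDiag →
            (e ∈ H.edgeSet ↔
              (SimpleGraph.fromEdgeSet
                ({f : Sym2 (Fin n) | f ∈ H.edgeSet ∧ σ f < σ e} ∪ {e})).Colorable 3)) ∧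
          ∃ c : H.Coloring (Fin 3), ∃ i : Fin 3,
            ((1 : ℝ) / 3 + ε) * (n : ℝ) ≤ (Nat.card {v : Fin n // c v = i} : ℝ)} ≤
      Nat.card {σ : Sym2 (Fin n) ≃ Fin (Fintype.card (Sym2 (Fin n))) //
        ∃ H : SimpleGraph (Fin n),
          (∀ e : Sym2 (Fin n), ¬ e.IsDiag →
            (e ∈ H.edgeSet ↔
              (SimpleGraph.fromEdgeSet
                ({f : Sym2 (Fin n) | f ∈ H.edgeSet ∧ σ f < σ e} ∪ {e})).Colorable 3)) ∧
          ∃ c : H.Coloring (Fin 3), ∃ i : Fin 3,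
            ((13 : ℝ) / 25) * (n : ℝ) ≤ (Nat.card {v : Fin n // c v = i} : ℝ)} := by
    apply Nat.card_le_card_of_injective
      (fun σ => ⟨σ.1, by
        obtain ⟨σ, H, hH, c, i, hi⟩ := σ
        refine ⟨H, hH, c, i, le_trans ?_ hi⟩
        apply mul_le_mul_of_nonneg_right _ (by positivity)
        linarith⟩)
    intro σ τ h
    exact Subtype.ext (by simpa using h)
  exact_mod_cast hsub

end Pool.Agent.Results.MP_81f5b7_pr.LargestClassBound
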